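import Pool.Agent.Q301.SF.Fz

/-!
# ZF does not prove that the space of the irrational numbers is a `k`-space

If there is a model of ZF, then there is a model of ZF in which the space of the irrational numbers
is not a `k`-space.

The model is the basic Cohen model. It has a set `D` of irrational numbers that is dense in the unit
interval, such that for every subset `J` of `D` all but finitely many points `d` of `J` have a
neighbourhood that meets `D \ J` in a finite set. A compact set of irrational numbers contains
only finitely many points of `D`, so `D` without one point is not closed, but its intersections with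
the compact sets are finite.
-/

namespace Pool.Agent.Results.MP_478558_lc.NotKSpace

open FirstOrder FirstOrder.Language
open Pool.Agent.Helper672.Plain (LSet El)
open Pool.Agent.H635Amen (ZF IsReals)
open Pool.Agent.Q301.BM (IsUsualTop)
open Pool.Agent.Q301.TM (IsSubspace)
open Pool.Agent.Q301.SF

universe u

theorem result (h : ∃ (M : Type u) (_ : LSet.Structure M), ZF M) :
    ∃ (N : Type u) (_ : LSet.Structure N), ZF N ∧
      ∃ (r : N) (_ : Field (El r)) (_ : LinearOrder (El r)) (_ : IsStrictOrderedRing (El r)),
        IsReals r ∧ ∃ tE p t : N, IsUsualTop tE r ∧ IsIrrationals p r ∧ IsSubspace t p tE ∧
          ¬ IsKSpace t p :=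
  p478558 h

end Pool.Agent.Results.MP_478558_lc.NotKSpace
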